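import Pool.Agent.helper53.DC.SpecA

/-! Project dc, module A10. -/

set_option autoImplicit false

namespace Pool.Agent.helper99.DC

open Pool.Agent.helper53.DC

theorem A10_conj {B W : Type} [Group W] {M : CoxeterMatrix B} (cs : CoxeterSystem M W) (i j : B)
    (b : ℕ) : cs.simple i * (cs.simple i * cs.simple j) ^ b * cs.simple i =
      ((cs.simple i * cs.simple j) ^ b)⁻¹ := by
  have h1 : cs.simple i * (cs.simple i * cs.simple j) * (cs.simple i)⁻¹ =
      (cs.simple i * cs.simple j)⁻¹ := by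
    rw [mul_inv_rev, cs.inv_simple, cs.inv_simple, ← mul_assoc, cs.simple_mul_simple_self, one_mul]
  have h2 : cs.simple i * (cs.simple i * cs.simple j) ^ b * (cs.simple i)⁻¹ =
      ((cs.simple i * cs.simple j) ^ b)⁻¹ := by
    rw [← conj_pow, h1, inv_pow]
  rwa [cs.inv_simple] at h2

theorem A10 : A10_stmt := by
  intro B W _ M cs r r' h
  obtain ⟨x, i, j, a, b, hm, h1, h2⟩ := h
  refine ⟨i, j, hm, ?_⟩
  set q := cs.simple i * cs.simple j with hq
  have h3 : r.1 * r'.1 = x * (q ^ a * (q ^ b)⁻¹) * x⁻¹ := by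
    have h5 := A10_conj cs i j b
    rw [← hq] at h5
    rw [← h5, h1, h2]
    group
  rw [h3, conj_pow]
  have hc : Commute (q ^ a) ((q ^ b)⁻¹) := (Commute.pow_pow_self q a b).inv_right
  have h4 : q ^ M i j = 1 := cs.simple_mul_simple_pow i j
  rw [hc.mul_pow, inv_pow, ← pow_mul, ← pow_mul, Nat.mul_comm a, Nat.mul_comm b, pow_mul, pow_mul,
    h4]
  simp

end Pool.Agent.helper99.DC
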