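import Pool.Agent.helper53.DC.SpecA

/-! Project dc, module A14. -/

set_option autoImplicit false

namespace Pool.Agent.helper99.DC

open Pool.Agent.helper53.DC

/-- `A14` for systems with at least one wall. -/
theorem A14' {B W : Type} [Group W] {M : CoxeterMatrix B} (cs : CoxeterSystem M W)
    (h0 : Nonempty (Wall cs)) (x y : W) :
    ∃ (X : ℕ → W) (w : ℕ → Wall cs), Gal cs (dd cs x y) X w ∧ X 0 = x ∧ X (dd cs x y) = y := by
  obtain ⟨r0⟩ := h0
  obtain ⟨ω, hω, he⟩ := cs.exists_isReduced (x⁻¹ * y)
  have hl : dd cs x y = ω.length := by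
    unfold dd
    rw [he]
    exact hω.eq
  set X : ℕ → W := fun k => x * cs.wordProd (ω.take k) with hX
  set w : ℕ → Wall cs := fun k => if h : k < ω.length then wall cs (X k) ω[k] else r0 with hw
  have h0 : X 0 = x := by simp [hX]
  have hn : X (dd cs x y) = y := by
    simp only [hX]
    rw [hl, List.take_length, ← he]
    group
  have hstep : ∀ k, (h : k < ω.length) → X (k + 1) = X k * cs.simple ω[k] := by
    intro k hk
    simp only [hX]
    rw [List.take_succ_eq_append_getElem hk, cs.wordProd_append, cs.wordProd_singleton, mul_assoc]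
  refine ⟨X, w, ⟨?_, ?_, ?_⟩, h0, hn⟩
  · intro k hk
    rw [hl] at hk
    have h1 : w k = wall cs (X k) ω[k] := by
      simp only [hw]
      rw [dif_pos hk]
    rw [h1, wall_val, hstep k hk]
    group
  · intro k hk
    rw [hl] at hk
    exact ⟨_, hstep k hk⟩
  · rw [h0, hn]

theorem A14 : A14_stmt := by
  intro B W _ M cs h0 x y
  exact A14' cs h0 x y

end Pool.Agent.helper99.DC
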