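import Pool.Agent.helper53.DC.SpecA

/-! Project dc, module A19 (and A19b). -/

set_option autoImplicit false

namespace Pool.Agent.helper99.DC

open Pool.Agent.helper53.DC

theorem A19 : A19_stmt := by
  intro B W _ _ M cs x n
  have h1 : {l : List B | l.length ≤ n}.Finite := List.finite_length_le B n
  refine (h1.image fun l => x * cs.wordProd l).subset ?_
  intro y hy
  obtain ⟨ω, hω, he⟩ := cs.exists_isReduced (x⁻¹ * y)
  refine ⟨ω, ?_, ?_⟩
  · have : cs.length (x⁻¹ * y) ≤ n := hy
    rw [he, hω.eq] at this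
    exact this
  · show x * cs.wordProd ω = y
    rw [← he]
    group

theorem A19b : A19b_stmt := by
  intro B W _ _ M cs c
  have hf : {y : W | dd cs 1 y ≤ c}.Finite := A19 cs 1 c
  refine ⟨hf.toFinset.card, fun x F hF => ?_⟩
  refine Finset.card_le_card_of_injOn (fun r => x⁻¹ * r.1 * x) ?_ ?_
  · intro r hr
    have h1 := hF r hr
    simp only [Set.Finite.coe_toFinset, Set.mem_ofPred_eq]
    rw [dd_one_left]
    unfold DD dd at h1
    rwa [show x⁻¹ * (r.1 * x) = x⁻¹ * r.1 * x by group] at h1
  · intro r _ r' _ h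
    apply Subtype.ext
    have h2 : x⁻¹ * r.1 * x = x⁻¹ * r'.1 * x := h
    exact mul_left_cancel (mul_right_cancel h2)

end Pool.Agent.helper99.DC
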