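import Pool.Agent.helper53.DC.SpecH

/-! Project dc, module H7: deep subgroups exist. -/

set_option autoImplicit false

namespace Pool.Agent.helper99.DC

open Pool.Agent.helper53.DC

theorem H7 (hH6 : H6_stmt) (hR9 : R9_stmt) (hA4c : A4c_stmt) (hA6 : A6_stmt) (hA7 : A7_stmt)
    (hA10 : A10_stmt) (hA17 : A17_stmt) (hA19 : A19_stmt) (hA21 : A21_stmt) (hW1 : W1_stmt) :
    H7_stmt := by
  classical
  intro B W _ _ M cs δ hyp m hm
  have : Fintype B := Fintype.ofFinite B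
  have good : (cw cs).Good := hA6 cs
  obtain ⟨-, -, hirr, -, -, -, -, -, -⟩ := hW1 (cw cs) good
  -- the exponent
  set M0 : ℕ := ∏ q : B × B, (if M q.1 q.2 = 0 then 1 else M q.1 q.2) with hM0
  have hM0pos : 0 < M0 := by
    rw [hM0]
    refine Finset.prod_pos fun q _ => ?_
    split_ifs with h
    · exact Nat.one_pos
    · exact Nat.pos_of_ne_zero h
  have hdvd : ∀ i j, M i j ≠ 0 → M i j ∣ M0 := by
    intro i j hij
    have h1 := Finset.dvd_prod_of_mem (fun q : B × B => if M q.1 q.2 = 0 then 1 else M q.1 q.2)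
      (Finset.mem_univ (i, j))
    simp only [if_neg hij] at h1
    exact h1
  have hpow : ∀ v v' : Wall cs, (cw cs).Cross v v' → (v.1 * v'.1) ^ M0 = 1 := by
    intro v v' hc
    obtain ⟨i, j, hij, he⟩ := hA10 cs v v' (hA7 cs v v' hc)
    obtain ⟨k, hk⟩ := hdvd i j hij
    rw [hk, pow_mul, he, one_pow]
  obtain ⟨P, hPf, hP⟩ := hA21 cs
  obtain ⟨l, hl⟩ := hH6 cs δ hyp m
  -- the short reflections
  have hball : {y : W | dd cs 1 y ≤ l}.Finite := hA19 cs 1 l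
  set Fa : Set W := (fun p : Wall cs × Wall cs => p.1.1 * p.2.1) '' {p | p ∈ P ∧ p.1 ≠ p.2} with hFa
  set Fb : Set W := {g : W | ∃ ρ ρ' : Wall cs, (cw cs).Dis ρ ρ' ∧ dd cs 1 ρ.1 ≤ l ∧
    dd cs 1 ρ'.1 ≤ l ∧ (g = ρ.1 * ρ'.1 ∨ g = (ρ.1 * ρ'.1) ^ M0)} with hFb
  have hFaf : Fa.Finite := (hPf.subset fun p hp => hp.1).image _
  have hFbf : Fb.Finite := by
    have h1 : ((fun q : W × W => q.1 * q.2) ''
        ({y : W | dd cs 1 y ≤ l} ×ˢ {y : W | dd cs 1 y ≤ l}) ∪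
        (fun q : W × W => (q.1 * q.2) ^ M0) ''
        ({y : W | dd cs 1 y ≤ l} ×ˢ {y : W | dd cs 1 y ≤ l})).Finite :=
      ((hball.prod hball).image _).union ((hball.prod hball).image _)
    refine h1.subset ?_
    rintro g ⟨ρ, ρ', -, h2, h3, h4 | h4⟩
    · exact Or.inl ⟨(ρ.1, ρ'.1), ⟨h2, h3⟩, h4.symm⟩
    · exact Or.inr ⟨(ρ.1, ρ'.1), ⟨h2, h3⟩, h4.symm⟩
  have hne : ∀ g ∈ (hFaf.union hFbf).toFinset, g ≠ 1 := by
    intro g hg
    rw [Set.Finite.mem_toFinset] at hg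
    rcases hg with ⟨p, ⟨-, hp⟩, rfl⟩ | ⟨ρ, ρ', hd, -, -, rfl | rfl⟩
    · intro h
      refine hp (Subtype.ext ?_)
      have h1 : p.1.1 = (p.2.1)⁻¹ := eq_inv_of_mul_eq_one_left h
      rw [h1, p.2.2.inv]
    · have := hA17 cs ρ ρ' hd 1 Nat.one_pos
      rwa [pow_one] at this
    · exact hA17 cs ρ ρ' hd M0 hM0pos
  obtain ⟨H, hHn, hHf, hHF⟩ := hR9 cs (hFaf.union hFbf).toFinset hne
  have hFaH : ∀ p ∈ P, p.1 ≠ p.2 → p.1.1 * p.2.1 ∉ H := by
    intro p hp hpp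
    refine hHF _ ?_
    rw [Set.Finite.mem_toFinset]
    exact Or.inl ⟨p, ⟨hp, hpp⟩, rfl⟩
  have hFbH : ∀ ρ ρ' : Wall cs, (cw cs).Dis ρ ρ' → dd cs 1 ρ.1 ≤ l → dd cs 1 ρ'.1 ≤ l →
      ρ.1 * ρ'.1 ∉ H ∧ (ρ.1 * ρ'.1) ^ M0 ∉ H := by
    intro ρ ρ' h1 h2 h3
    constructor
    · refine hHF _ ?_
      rw [Set.Finite.mem_toFinset]
      exact Or.inr ⟨ρ, ρ', h1, h2, h3, Or.inl rfl⟩
    · refine hHF _ ?_
      rw [Set.Finite.mem_toFinset]
      exact Or.inr ⟨ρ, ρ', h1, h2, h3, Or.inr rfl⟩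
  -- same label
  have hlab : ∀ r r' : Wall cs, lab cs H r = lab cs H r' → r.1 * r'.1 ∈ H := by
    intro r r' h
    obtain ⟨g, hg, he⟩ := (lab_eq cs).1 h
    have h1 : r'.1 = g * r.1 * g⁻¹ := by rw [← he]; rfl
    have h2 : r.1 * r'.1 = (r.1 * g * r.1⁻¹) * g⁻¹ := by
      rw [h1, r.2.inv]
      group
    rw [h2]
    exact H.mul_mem (hHn.conj_mem g hg r.1) (H.inv_mem hg)
  -- close disjoint walls
  have hclose : ∀ r r' : Wall cs, (cw cs).Dis r r' → ¬ (cw cs).SepCh m r r' →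
      r.1 * r'.1 ∉ H ∧ (r.1 * r'.1) ^ M0 ∉ H := by
    intro r r' hd hs
    obtain ⟨x, hx, hx'⟩ := hl r r' hd hs
    have hd' := ((hA4c cs x⁻¹).2.1 r r').2 hd
    have e1 : (x⁻¹ • r).1 = x⁻¹ * r.1 * x := by
      rw [smul_wall_val, inv_inv]
    have e2 : (x⁻¹ • r').1 = x⁻¹ * r'.1 * x := by
      rw [smul_wall_val, inv_inv]
    have d1 : dd cs 1 (x⁻¹ • r).1 ≤ l := by
      rw [e1, dd_one_left]
      unfold DD dd at hx
      rwa [show x⁻¹ * (r.1 * x) = x⁻¹ * r.1 * x by group] at hx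
    have d2 : dd cs 1 (x⁻¹ • r').1 ≤ l := by
      rw [e2, dd_one_left]
      unfold DD dd at hx'
      rwa [show x⁻¹ * (r'.1 * x) = x⁻¹ * r'.1 * x by group] at hx'
    obtain ⟨k1, k2⟩ := hFbH _ _ hd' d1 d2
    have e3 : (x⁻¹ • r).1 * (x⁻¹ • r').1 = x⁻¹ * (r.1 * r'.1) * x⁻¹⁻¹ := by
      rw [e1, e2, inv_inv]
      group
    constructor
    · intro h
      refine k1 ?_
      rw [e3]
      exact hHn.conj_mem _ h _
    · intro h
      refine k2 ?_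
      rw [e3, conj_pow]
      exact hHn.conj_mem _ h _
  have ha1 : ∀ r r' : Wall cs, (cw cs).Cross r r' → lab cs H r ≠ lab cs H r' := by
    intro r r' hc hlb
    obtain ⟨g, p, hp, e1, e2⟩ := hP r r' (hA7 cs r r' hc)
    have hpp : p.1 ≠ p.2 := by
      intro h
      rw [e1, e2, h] at hc
      exact hirr _ hc
    refine hFaH p hp hpp ?_
    have h1 := hlab r r' hlb
    have h2 : p.1.1 * p.2.1 = g⁻¹ * (r.1 * r'.1) * g⁻¹⁻¹ := by
      rw [e1, e2, smul_wall_val, smul_wall_val]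
      group
    rw [h2]
    exact hHn.conj_mem _ h1 _
  refine ⟨H, hHn, hHf, hm, ha1, ?_, ?_⟩
  · intro r r' hd hb
    have hs : ¬ (cw cs).SepCh m r r' := by
      rintro ⟨v, hv⟩
      exact hb (v 0) (hv.1 0 hm)
    obtain ⟨k1, k2⟩ := hclose r r' hd hs
    refine ⟨fun h => k1 (hlab r r' h), ?_⟩
    rintro ⟨-, v, v', hv, hv', hc⟩
    obtain ⟨g, hg, he⟩ := (lab_eq cs).1 hv
    obtain ⟨g', hg', he'⟩ := (lab_eq cs).1 hv'
    have := hHn
    refine k2 ?_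
    rw [← QuotientGroup.eq_one_iff]
    have q1 : ((g : W) : W ⧸ H) = 1 := (QuotientGroup.eq_one_iff g).2 hg
    have q2 : ((g' : W) : W ⧸ H) = 1 := (QuotientGroup.eq_one_iff g').2 hg'
    have w1 : ((r.1 : W) : W ⧸ H) = ((v.1 : W) : W ⧸ H) := by
      rw [← he, smul_wall_val, QuotientGroup.mk_mul, QuotientGroup.mk_mul, QuotientGroup.mk_inv, q1]
      simp
    have w2 : ((r'.1 : W) : W ⧸ H) = ((v'.1 : W) : W ⧸ H) := by
      rw [← he', smul_wall_val, QuotientGroup.mk_mul, QuotientGroup.mk_mul, QuotientGroup.mk_inv,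
        q2]
      simp
    rw [QuotientGroup.mk_pow, QuotientGroup.mk_mul, w1, w2, ← QuotientGroup.mk_mul,
      ← QuotientGroup.mk_pow, hpow v v' hc, QuotientGroup.mk_one]
  · intro r r' hne' hlb
    by_contra hs
    have hd : (cw cs).Dis r r' := ⟨hne', fun hc => ha1 r r' hc hlb⟩
    exact (hclose r r' hd hs).1 (hlab r r' hlb)

end Pool.Agent.helper99.DC
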