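import Pool.Agent.helper53.DC.SpecM

/-! Project dc, module L5: crossing, disjointness and separation are preserved. -/

set_option autoImplicit false

namespace Pool.Agent.helper99.DC

open Pool.Agent.helper53.DC

theorem L5_unique {X Wl : Type} (S : WS X Wl) (w : Wl) (x : X) {b b' : Bool}
    (h : x ∈ S.hs w b) (h' : x ∈ S.hs w b') : b = b' := by
  unfold WS.hs at h h'
  by_cases hx : x ∈ S.H w <;> cases b <;> cases b' <;> simp_all

theorem L5_sep {X Wl : Type} (S : WS X Wl) (v : Wl) (x y : X) (b : Bool)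
    (h : x ∈ S.hs v b) (h' : y ∈ S.hs v (!b)) : S.Sep v x y := by
  unfold WS.Sep
  unfold WS.hs at h h'
  cases b <;> simp_all

theorem L5_sideA {X Wl X' Wl' : Type} (S : WS X Wl) (S' : WS X' Wl') (c : X → X') (r : Wl)
    (w : Wl') (o : X) (h : ∀ x, S'.Sep w (c o) (c x) ↔ S.Sep r o x) :
    ∃ e : Bool, ∀ x b, c x ∈ S'.hs w b ↔ x ∈ S.hs r (xor b e) := by
  unfold WS.Sep at h
  by_cases h1 : o ∈ S.H r <;> by_cases h2 : c o ∈ S'.H w
  · refine ⟨false, fun x b => ?_⟩
    have := h x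
    unfold WS.hs
    by_cases p : c x ∈ S'.H w <;> by_cases q : x ∈ S.H r <;> cases b <;> simp_all
  · refine ⟨true, fun x b => ?_⟩
    have := h x
    unfold WS.hs
    by_cases p : c x ∈ S'.H w <;> by_cases q : x ∈ S.H r <;> cases b <;> simp_all
  · refine ⟨true, fun x b => ?_⟩
    have := h x
    unfold WS.hs
    by_cases p : c x ∈ S'.H w <;> by_cases q : x ∈ S.H r <;> cases b <;> simp_all
  · refine ⟨false, fun x b => ?_⟩
    have := h x
    unfold WS.hs
    by_cases p : c x ∈ S'.H w <;> by_cases q : x ∈ S.H r <;> cases b <;> simp_all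

section
variable {B W : Type} [Group W] {M : CoxeterMatrix B} (cs : CoxeterSystem M W) (H : Subgroup W)
  (c : W → RA (labG cs H)) (w : Wall cs → Wall (ra (labG cs H)))

theorem L5_side (hw : IsWM cs H c w) (r : Wall cs) :
    ∃ e : Bool, ∀ x b, c x ∈ (cw (ra (labG cs H))).hs (w r) b ↔ x ∈ (cw cs).hs r (xor b e) :=
  L5_sideA (cw cs) (cw (ra (labG cs H))) c r (w r) 1 fun x => hw.sep r 1 x

theorem L5_car_ne (r : Wall cs) : (Car cs r).Nonempty := by
  obtain ⟨y, i, h⟩ := r.2
  refine ⟨y, i, ?_⟩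
  rw [h]
  group

theorem L5_car (hw : IsWM cs H c w) (r : Wall cs) {x : W} (hx : x ∈ Car cs r) :
    c x ∈ Car (ra (labG cs H)) (w r) := by
  refine ⟨lab cs H r, ?_⟩
  rw [hw.car r x hx, wall_val]
  group

end

theorem L5 (hM2 : M2_stmt) (hA5 : A5_stmt) (hA6 : A6_stmt) (hA22 : A22_stmt) (hW1 : W1_stmt)
    (hW3 : W3_stmt) : L5_stmt := by
  classical
  intro B W _ M cs H m c w hdeep hdev hw
  set S := cw cs with hS
  set S' := cw (ra (labG cs H)) with hS'
  have good : S.Good := hA6 cs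
  have good' : S'.Good := hA6 (ra (labG cs H))
  obtain ⟨a1, a2, a3, a4, a5, a6, a7, a8, a9⟩ := hW1 S good
  obtain ⟨b1, b2, b3, b4, b5, b6, b7, b8, b9⟩ := hW1 S' good'
  obtain ⟨-, -, c3, c4, c5, -⟩ := hW3 S good
  obtain ⟨-, d2, -⟩ := hW3 S' good'
  choose e he using L5_side cs H c w hw
  -- crossing walls
  have hcr : ∀ r r', S.Cross r r' → S'.Cross (w r) (w r') := by
    intro r r' h b b'
    obtain ⟨x, hx, hx'⟩ := h (xor b (e r)) (xor b' (e r'))
    exact ⟨c x, (he r x b).2 hx, (he r' x b').2 hx'⟩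
  -- positions, given disjointness of the images
  have hon : ∀ r u b β, S.On r u b → S'.On (w r) (w u) β → β = xor b (e u) := by
    intro r u b β h1 h2
    obtain ⟨x, hx⟩ := L5_car_ne cs r
    have k1 : x ∈ S.hs u b := (hA22 cs r u b h1.1).1 h1 hx
    have k2 : c x ∈ S'.hs (w u) β := (hA22 (ra (labG cs H)) (w r) (w u) β h2.1).1 h2
      (L5_car cs H c w hw r hx)
    have k3 := (he u x β).1 k2
    have k4 := L5_unique S u x k1 k3
    rw [k4]
    cases β <;> cases e u <;> rfl
  -- walls between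
  have hfin : ∀ r r', {v | S.Btw v r r'}.Finite := by
    intro r r'
    obtain ⟨x, hx⟩ := L5_car_ne cs r
    obtain ⟨y, hy⟩ := L5_car_ne cs r'
    refine (hA5 cs x y).1.subset ?_
    rintro v ⟨b, h1, h2⟩
    have k1 : x ∈ S.hs v b := (hA22 cs r v b h1.1).1 h1 hx
    have k2 : y ∈ S.hs v (!b) := (hA22 cs r' v (!b) h2.1).1 h2 hy
    exact L5_sep S v x y b k1 k2
  have hdis : ∀ (n : ℕ) (r r' : Wall cs), {v | S.Btw v r r'}.ncard = n → S.Dis r r' →
      S'.Dis (w r) (w r') := by
    intro n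
    induction n using Nat.strong_induction_on with
    | _ n ih =>
    intro r r' hn hd
    have hne : w r ≠ w r' := fun h => hd.1 (hw.inj h)
    by_cases hb : ∃ u, S.Btw u r r'
    · obtain ⟨u, hu⟩ := hb
      have hu' := hu
      obtain ⟨b, h1, h2⟩ := hu'
      have s1 : {v | S.Btw v r u} ⊂ {v | S.Btw v r r'} := by
        refine (Set.ssubset_iff_of_subset fun v hv => (c4 v u r r' hv hu).1).2 ⟨u, hu, ?_⟩
        rintro ⟨b', -, h3⟩
        exact h3.1 rfl
      have s2 : {v | S.Btw v u r'} ⊂ {v | S.Btw v r r'} := by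
        refine (Set.ssubset_iff_of_subset fun v hv => (c5 u v r r' hu hv).1).2 ⟨u, hu, ?_⟩
        rintro ⟨b', h3, -⟩
        exact h3.1 rfl
      have n1 := Set.ncard_lt_ncard s1 (hfin r r')
      have n2 := Set.ncard_lt_ncard s2 (hfin r r')
      rw [hn] at n1 n2
      have i1 := ih _ n1 r u rfl (a7 r u b h1)
      have i2 := ih _ n2 u r' rfl (a4 _ _ (a7 r' u _ h2))
      obtain ⟨β, hβ⟩ := b6 _ _ i1
      obtain ⟨β', hβ'⟩ := b6 _ _ (b4 _ _ i2)
      have e1 := hon r u b β h1 hβ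
      have e2 := hon r' u (!b) β' h2 hβ'
      have e3 : β' = !β := by
        rw [e1, e2]
        cases b <;> cases e u <;> rfl
      rw [e3] at hβ'
      exact (d2 (w u) (w r) (w r') ⟨β, hβ, hβ'⟩).1
    · push Not at hb
      obtain ⟨-, k2⟩ := hdeep.a2 r r' hd hb
      refine ⟨hne, fun hc => k2 ?_⟩
      obtain ⟨x, hx⟩ := L5_car_ne cs r
      obtain ⟨y, hy⟩ := L5_car_ne cs r'
      rw [hw.car r x hx, hw.car r' y hy] at hc
      exact (hM2 (labG cs H)).2.2.2 _ _ _ _ hc
  have hdis' : ∀ r r' : Wall cs, S.Dis r r' → S'.Dis (w r) (w r') := fun r r' =>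
    hdis _ r r' rfl
  have hcr' : ∀ r r', S'.Cross (w r) (w r') ↔ S.Cross r r' := by
    intro r r'
    refine ⟨fun h => ?_, hcr r r'⟩
    rcases a5 r r' with h1 | h1 | h1
    · subst h1
      exact absurd h (b3 _)
    · exact h1
    · exact absurd h (hdis' r r' h1).2
  refine ⟨hcr', ?_⟩
  intro v r r'
  constructor
  · rintro ⟨β, h1, h2⟩
    have key : ∀ q β, S'.On (w q) (w v) β → S.On q v (xor β (e v)) := by
      intro q β hq
      have hqv : S.Dis q v := by
        refine ⟨fun h => hq.1 (by rw [h]), fun h => ?_⟩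
        exact (b7 _ _ _ hq).2 (hcr q v h)
      obtain ⟨b, hb⟩ := a6 q v hqv
      have := hon q v b β hb hq
      have e1 : b = xor β (e v) := by
        rw [this]
        cases b <;> cases e v <;> rfl
      rwa [e1] at hb
    refine ⟨xor β (e v), key r β h1, ?_⟩
    have := key r' (!β) h2
    have e1 : (!(xor β (e v))) = xor (!β) (e v) := by
      cases β <;> cases e v <;> rfl
    rwa [e1]
  · rintro ⟨b, h1, h2⟩
    have key : ∀ q b, S.On q v b → S'.On (w q) (w v) (xor b (e v)) := by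
      intro q b hq
      obtain ⟨β, hβ⟩ := b6 _ _ (hdis' q v (a7 q v b hq))
      rwa [← hon q v b β hq hβ]
    refine ⟨xor b (e v), key r b h1, ?_⟩
    have := key r' (!b) h2
    have e1 : (!(xor b (e v))) = xor (!b) (e v) := by
      cases b <;> cases e v <;> rfl
    rwa [e1]

end Pool.Agent.helper99.DC
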