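import Pool.Agent.helper53.DC.SpecM

/-! Project dc, module M6: the corner lemma. -/

set_option autoImplicit false

namespace Pool.Agent.helper99.DC

open Pool.Agent.helper53.DC

theorem M6_sep_hs {X Wl : Type} (S : WS X Wl) (w : Wl) (x y : X) :
    S.Sep w x y ↔ ∃ b, x ∈ S.hs w b ∧ y ∈ S.hs w (!b) := by
  unfold WS.Sep WS.hs
  by_cases hx : x ∈ S.H w <;> by_cases hy : y ∈ S.H w <;> simp [hx, hy]

theorem M6_side {X Wl : Type} (S : WS X Wl) (w : Wl) (x : X) : ∃ b, x ∈ S.hs w b := by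
  by_cases hx : x ∈ S.H w
  · exact ⟨true, by simp [WS.hs, hx]⟩
  · exact ⟨false, by simp [WS.hs, hx]⟩

theorem M6_unique {X Wl : Type} (S : WS X Wl) (w : Wl) (x : X) {b b' : Bool}
    (h : x ∈ S.hs w b) (h' : x ∈ S.hs w b') : b = b' := by
  unfold WS.hs at h h'
  by_cases hx : x ∈ S.H w <;> cases b <;> cases b' <;> simp_all

theorem M6 (hM4 : M4_stmt) (hA3 : A3_stmt) (hA14 : A14_stmt) (hA15 : A15_stmt) : M6_stmt := by
  classical
  intro Γ _ G C BB hconv hF y hy
  have hft : Fintype Γ := Fintype.ofFinite Γ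
  set cs := ra G with hcs
  set S := cw cs with hS
  set T : Finset (Wall cs) := (Finset.univ : Finset Γ).image (fun s => wall cs y s) with hT
  set cand : Finset (Finset (Wall cs)) := T.powerset.filter fun F =>
    (∀ f ∈ F, ∀ f' ∈ F, f ≠ f' → S.Cross f f') ∧ ∀ f ∈ F, S.CrS f C with hcand
  have hne : cand.Nonempty := ⟨∅, by simp [hcand]⟩
  obtain ⟨F, hFc, hmax⟩ := Finset.exists_max_image cand Finset.card hne
  obtain ⟨hFT, hFcr, hFC⟩ := Finset.mem_filter.1 hFc
  rw [Finset.mem_powerset] at hFT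
  obtain ⟨b, hb, ⟨z, hzb, hzC⟩, hFb⟩ := hF F hFcr hFC
  refine ⟨b, hb, ?_⟩
  by_contra hyb
  obtain ⟨g, hg, hgate⟩ := hM4 G b (hconv b hb) ⟨z, hzb⟩ y
  have hyg : y ≠ g := fun h => hyb (h ▸ hg)
  have hd : 0 < dd cs y g := by
    rcases Nat.eq_zero_or_pos (dd cs y g) with h | h
    · exact absurd ((dd_eq_zero cs).1 h) hyg
    · exact h
  -- a wall exists
  obtain ⟨s0, -⟩ := CoxeterSystem.exists_leftDescent_of_ne_one cs
    (w := y⁻¹ * g) (fun h => hyg (inv_mul_eq_one.1 h))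
  have hwn : Nonempty (Wall cs) := ⟨wall cs 1 s0⟩
  obtain ⟨X, w, hgal, hX0, hXn⟩ := hA14 cs y g
  obtain ⟨-, h15, -, -, -⟩ := hA15 cs _ X w hgal
  obtain ⟨s, hs⟩ := hgal.adj 0 hd
  have hw0 : w 0 = wall cs y s := by
    apply Subtype.ext
    have h1 := hgal.step 0 hd
    rw [hs, hX0] at h1
    rw [wall_val]
    exact eq_mul_inv_of_mul_eq h1.symm
  have hsep : S.Sep (w 0) y g := by
    have := (h15 0 0 (dd cs y g) hd (Nat.zero_le _) le_rfl).2 ⟨le_rfl, hd⟩
    rwa [hX0, hXn] at this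
  have hall : ∀ p ∈ b, S.Sep (w 0) y p := hgate (w 0) hsep
  obtain ⟨σ, hyσ⟩ := M6_side S (w 0) y
  have hbσ : ∀ p ∈ b, p ∈ S.hs (w 0) (!σ) := by
    intro p hp
    obtain ⟨β, h1, h2⟩ := (M6_sep_hs S (w 0) y p).1 (hall p hp)
    rwa [M6_unique S (w 0) y h1 hyσ] at h2
  have hnotF : w 0 ∉ F := by
    intro h
    obtain ⟨p, hp, q, hq, hpq⟩ := hFb (w 0) h
    obtain ⟨β, h1, h2⟩ := (M6_sep_hs S (w 0) p q).1 hpq
    have e1 := M6_unique S (w 0) p h1 (hbσ p hp)
    have e2 := M6_unique S (w 0) q h2 (hbσ q hq)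
    rw [e1] at e2
    cases σ <;> simp at e2
  have hcross : ∀ f ∈ F, S.Cross (w 0) f ∧ S.Cross f (w 0) := by
    intro f hf
    obtain ⟨t, -, ht⟩ := Finset.mem_image.1 (hFT hf)
    have hfw : f ≠ w 0 := fun h => hnotF (h ▸ hf)
    -- the neighbour of y behind f
    have n1 : S.Sep f y (y * cs.simple t) := (hA3 cs f y t).2 ht.symm
    have n2 : ¬ S.Sep (w 0) y (y * cs.simple t) := fun h => hfw
      (ht.symm.trans ((hA3 cs (w 0) y t).1 h).symm)
    obtain ⟨τ, hyτ, hytτ⟩ := (M6_sep_hs S f y _).1 n1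
    have n3 : y * cs.simple t ∈ S.hs (w 0) σ := by
      obtain ⟨β, hβ⟩ := M6_side S (w 0) (y * cs.simple t)
      by_cases he : β = σ
      · rwa [he] at hβ
      · exfalso
        have : β = !σ := by cases β <;> cases σ <;> simp_all
        rw [this] at hβ
        exact n2 ((M6_sep_hs S (w 0) _ _).2 ⟨σ, hyσ, hβ⟩)
    obtain ⟨p, hp, q, hq, hpq⟩ := hFb f hf
    obtain ⟨β, hpβ, hqβ⟩ := (M6_sep_hs S f p q).1 hpq
    have hquad : ∀ u v : Bool, (S.hs (w 0) u ∩ S.hs f v).Nonempty := by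
      intro u v
      by_cases hu : u = σ
      · subst hu
        by_cases hv : v = τ
        · subst hv
          exact ⟨y, hyσ, hyτ⟩
        · have : v = !τ := by cases v <;> cases τ <;> simp_all
          rw [this]
          exact ⟨_, n3, hytτ⟩
      · have hu' : u = !σ := by cases u <;> cases σ <;> simp_all
        rw [hu']
        by_cases hv : v = β
        · rw [hv]
          exact ⟨p, hbσ p hp, hpβ⟩
        · have : v = !β := by cases v <;> cases β <;> simp_all
          rw [this]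
          exact ⟨q, hbσ q hq, hqβ⟩
    exact ⟨hquad, fun u v => by rw [Set.inter_comm]; exact hquad v u⟩
  have hins : insert (w 0) F ∈ cand := by
    refine Finset.mem_filter.2 ⟨?_, ?_, ?_⟩
    · rw [Finset.mem_powerset]
      refine Finset.insert_subset ?_ hFT
      rw [hw0]
      exact Finset.mem_image_of_mem _ (Finset.mem_univ s)
    · intro f hf f' hf' hne'
      rcases Finset.mem_insert.1 hf with rfl | hf <;> rcases Finset.mem_insert.1 hf' with rfl | hf'
      · exact absurd rfl hne'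
      · exact (hcross f' hf').1
      · exact (hcross f hf).2
      · exact hFcr f hf f' hf' hne'
    · intro f hf
      rcases Finset.mem_insert.1 hf with rfl | hf
      · exact ⟨y, hy, z, hzC, hall z hzb⟩
      · exact hFC f hf
  have := hmax _ hins
  rw [Finset.card_insert_of_notMem hnotF] at this
  omega

end Pool.Agent.helper99.DC
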