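import Pool.Agent.helper53.DC.SpecA

/-! Project dc, module W1: basic facts on abstract walls. -/

set_option autoImplicit false

namespace Pool.Agent.helper99.DC

open Pool.Agent.helper53.DC

theorem W1_hs_true {X Wl : Type} (S : WS X Wl) (w : Wl) : S.hs w true = S.H w := by
  ext x
  simp [WS.hs]

theorem W1_hs_false {X Wl : Type} (S : WS X Wl) (w : Wl) : S.hs w false = (S.H w)ᶜ := by
  ext x
  simp [WS.hs]

theorem W1_compl {X Wl : Type} (S : WS X Wl) (w : Wl) (b : Bool) :
    S.hs w (!b) = (S.hs w b)ᶜ := by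
  cases b
  · rw [Bool.not_false, W1_hs_true, W1_hs_false, compl_compl]
  · rw [Bool.not_true, W1_hs_true, W1_hs_false]

theorem W1_nonempty {X Wl : Type} (S : WS X Wl) (g : S.Good) (w : Wl) (b : Bool) :
    (S.hs w b).Nonempty := by
  cases b
  · rw [W1_hs_false]; exact g.nec w
  · rw [W1_hs_true]; exact g.ne w

theorem W1_ne {X Wl : Type} (S : WS X Wl) (g : S.Good) {u v : Wl} (h : u ≠ v) (b c : Bool) :
    S.hs u b ≠ S.hs v c := by
  intro he
  cases b <;> cases c
  · rw [W1_hs_false, W1_hs_false] at he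
    exact h (g.inj _ _ (compl_injective he))
  · rw [W1_hs_false, W1_hs_true] at he
    exact g.injc v u he.symm
  · rw [W1_hs_false, W1_hs_true] at he
    exact g.injc u v he
  · rw [W1_hs_true, W1_hs_true] at he
    exact h (g.inj _ _ he)

theorem W1_sub {X Wl : Type} (S : WS X Wl) {u v : Wl} {b c : Bool}
    (h : S.hs u b ⊆ S.hs v c) : S.hs v (!c) ⊆ S.hs u (!b) := by
  rw [W1_compl, W1_compl]
  exact Set.compl_subset_compl.2 h

theorem W1 : W1_stmt := by
  intro X Wl S g
  have hcs : ∀ u v, S.Cross u v → S.Cross v u := fun u v h b b' => by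
    rw [Set.inter_comm]
    exact h b' b
  refine ⟨?_, hcs, ?_, ?_, ?_, ?_, ?_, ?_, ?_⟩
  · intro u v b
    refine ⟨W1_nonempty S g u b, W1_compl S u b, ?_, ?_⟩
    · intro h
      by_contra hn
      exact W1_ne S g hn b b h
    · intro h
      by_cases he : u = v
      · subst he
        rw [W1_compl] at h
        obtain ⟨x, hx⟩ := W1_nonempty S g u b
        have h2 := hx
        rw [h] at h2
        exact h2 hx
      · exact W1_ne S g he b _ h
  · intro u h
    obtain ⟨x, hx, hx'⟩ := h true false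
    rw [W1_hs_true] at hx
    rw [W1_hs_false] at hx'
    exact hx' hx
  · rintro u v ⟨h1, h2⟩
    exact ⟨h1.symm, fun h => h2 (hcs _ _ h)⟩
  · intro u v
    by_cases h1 : u = v
    · exact Or.inl h1
    · by_cases h2 : S.Cross u v
      · exact Or.inr (Or.inl h2)
      · exact Or.inr (Or.inr ⟨h1, h2⟩)
  · rintro u v ⟨h1, h2⟩
    unfold WS.Cross at h2
    push Not at h2
    obtain ⟨b, b', h3⟩ := h2
    refine ⟨!b', h1, b, fun x hx => ?_⟩
    rw [W1_compl]
    intro hx'
    have : x ∈ (∅ : Set X) := h3 ▸ ⟨hx, hx'⟩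
    exact this
  · rintro u v b ⟨h1, b', h2⟩
    refine ⟨h1, fun h => ?_⟩
    obtain ⟨x, hx, hx'⟩ := h b' (!b)
    rw [W1_compl] at hx'
    exact hx' (h2 hx)
  · rintro u v b b' ⟨h1, c, h2⟩ ⟨-, c', h3⟩
    by_contra hne
    have hb : b' = !b := by
      cases b <;> cases b' <;> simp_all
    subst hb
    by_cases hc : c = c'
    · subst hc
      obtain ⟨x, hx⟩ := W1_nonempty S g u c
      have h4 := h3 hx
      rw [W1_compl] at h4
      exact h4 (h2 hx)
    · have hc' : c' = !c := by
        cases c <;> cases c' <;> simp_all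
      subst hc'
      have h4 := W1_sub S h3
      rw [Bool.not_not, Bool.not_not] at h4
      exact W1_ne S g h1 c b (Set.Subset.antisymm h2 h4)
  · rintro u v b ⟨h1, c, h2⟩
    refine ⟨!c, ⟨h1.symm, !b, W1_sub S h2⟩, ?_, ?_⟩
    · rw [Bool.not_not]
      exact h2.ssubset_of_ne (W1_ne S g h1 _ _)
    · exact (W1_sub S h2).ssubset_of_ne (W1_ne S g h1.symm _ _)

end Pool.Agent.helper99.DC
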