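import Mathlib
import Pool.Agent.helper58.DC.Spec1

/-! # Project dq (MP_baa4d7_al): module PM, basic facts on pairs -/

set_option autoImplicit false

namespace Pool.Agent.helper99.DC

open Pool.Agent.helper58.DC

theorem PM_funMap_mul {G : Type} [Group G] (α β : MulAut G) (ψ : G → ℂ) :
    funMap (α * β) ψ = funMap α (funMap β ψ) := by
  funext g
  simp [funMap, mul_inv_rev]

theorem PM_funMap_one {G : Type} [Group G] (ψ : G → ℂ) : funMap (1 : MulAut G) ψ = ψ := by
  funext g
  simp [funMap]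

theorem PM_omega_conj {G : Type} [Group G] (ψ : G → ℂ) (g x : G) :
    omega ψ (g * x * g⁻¹) = omega ψ x := by
  unfold omega
  have h : conjugatesOf (g * x * g⁻¹) = conjugatesOf x :=
    (IsConj.conjugatesOf_eq (isConj_iff.2 ⟨g, rfl⟩ : IsConj x (g * x * g⁻¹))).symm
  rw [h]

theorem PM (hNM : NM_stmt) (hSN : SN_stmt) (hIF : IF_stmt) (hOM : OM_stmt) (hIM : IM_stmt) :
    PM_stmt := by
  intro G _ _ p M χ x
  have h5 : ∀ α : MulAut G, Induces M (funMap α χ) χ → IsPair p M χ x →
      IsPair p M χ (pairMap α x) := by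
    intro α hα hx
    refine ⟨(hNM G α x.1).2.2.2.2.2.2 p hx.1, ?_, ?_⟩
    · have h1 := (hNM G α x.1).2.2.2.1
      show funMap α x.2 ∈ IrrOn (nrm (chainMap α x.1))
      rw [h1]
      exact ((hIF G (nrm x.1)).2 x.2 hx.2.1).2.2 α
    · show Induces M (funMap α x.2) χ
      have h2 := (hIM G M x.2 χ χ).2.2.2 α
      exact (hIM G M (funMap α x.2) (funMap α χ) χ).2.2.1 (h2.2 hx.2.2) hα
  refine ⟨?_, ?_, ?_, ?_, h5, ?_, ?_, ?_⟩
  · intro α β
    unfold pairMap
    rw [PM_funMap_mul, (hNM G α x.1).2.2.2.2.1 β]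
  · unfold pairMap
    rw [PM_funMap_one, (hNM G 1 x.1).2.2.2.2.2.1]
  · intro α
    unfold len pairMap
    rw [(hNM G α x.1).2.2.1]
  · intro α
    unfold dfc pairMap
    have h1 := (hNM G α x.1).2.2.2.1
    have h2 : Nat.card (nrm (chainMap α x.1)) = Nat.card (nrm x.1) := by
      rw [h1]
      exact Nat.card_congr ((nrm x.1).equivMapOfInjective α.toMonoidHom α.injective).symm.toEquiv
    have h3 : funMap α x.2 1 = x.2 1 := by
      unfold funMap
      rw [map_one]
    simp only [h2, h3]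
  · intro hx g
    apply h5 _ _ hx
    intro y
    refine ⟨0, M.zero_mem, ?_⟩
    have h1 : omega (funMap (MulAut.conj g) χ) y = omega χ y := by
      have h2 := hOM G (MulAut.conj g) χ y
      rw [MulAut.conj_apply, PM_omega_conj] at h2
      exact h2
    rw [h1, sub_self]
    simp
  · intro hx g hg
    unfold pairMap
    have h1 : chainMap (MulAut.conj g) x.1 = x.1 := (hSN G x.1 hx.1.chain g).2 hg
    have h2 : funMap (MulAut.conj g) x.2 = x.2 := by
      funext y
      unfold funMap
      have h3 : (MulAut.conj g)⁻¹ y = g⁻¹ * y * g⁻¹⁻¹ := by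
        rw [← map_inv, MulAut.conj_apply]
      rw [h3]
      exact ((hIF G (nrm x.1)).2 x.2 hx.2.1).2.1 g⁻¹ (inv_mem hg) y
    rw [h1, h2]
  · have h1 : {x | IsPair p M χ x} ⊆ ⋃ C : Finset (Subgroup G), ({C} : Set (Finset (Subgroup G))) ×ˢ
        IrrOn (nrm C) := by
      intro y hy
      rw [Set.mem_iUnion]
      exact ⟨y.1, rfl, hy.2.1⟩
    refine Set.Finite.subset ?_ h1
    have hfin : Finite (Subgroup G) := inferInstance
    have hfin2 : Finite (Finset (Subgroup G)) := inferInstance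
    apply Set.finite_iUnion
    intro C
    exact (Set.finite_singleton C).prod (hIF G (nrm C)).1

end Pool.Agent.helper99.DC
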