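import Mathlib
import Pool.Agent.helper58.DC.Spec1

/-! # Project dq (MP_baa4d7_al): module PT, the block of a power of a character -/

set_option autoImplicit false

namespace Pool.Agent.helper99.DC

open Pool.Agent.helper58.DC

theorem PT (hIRF : IRF_stmt) (hIRP : IRP_stmt) (hTI : TI_stmt) (hIP : IP_stmt) (hPO : PO_stmt) :
    PT_stmt := by
  intro G T _ _ _ p _ M χ hχ
  refine ⟨hIRP T (fun _ => G) (fun _ => χ) (fun _ => hχ), ?_, ?_⟩
  · rintro hT ⟨χ', hχ', hind, d, hd, n, hn, hdn⟩
    refine ⟨tens (fun _ : T => χ'), hIRP T (fun _ => G) (fun _ => χ') (fun _ => hχ'), ?_,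
      Fintype.card T * d, ?_, n ^ Fintype.card T, ?_, ?_⟩
    · exact (hIP G T M (fun _ => ⊤) (fun _ => χ') (fun _ => χ) (fun _ => (hTI G χ').2 hχ')
        (fun _ => hχ)).2 (fun _ => hind)
    · exact mul_pos (by exact_mod_cast Fintype.card_pos) hd
    · show ∏ t : T, χ' ((1 : T → G) t) = _
      simp only [Pi.one_apply]
      rw [Finset.prod_const, hn, Finset.card_univ]
      push_cast
      rfl
    · obtain ⟨m, hm, hm1⟩ := ((hIRF G).2 χ' hχ').1
      have hnm : n = m := by
        rw [hn] at hm1
        exact_mod_cast hm1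
      have hn0 : n ≠ 0 := by omega
      have h1 : Nat.card (⊤ : Subgroup (T → G)) = Nat.card (⊤ : Subgroup G) ^ Fintype.card T := by
        rw [Subgroup.card_top, Subgroup.card_top, Nat.card_fun, Nat.card_eq_fintype_card (α := T)]
      have h2 : Nat.card (⊤ : Subgroup G) ≠ 0 := by
        rw [Subgroup.card_top]
        exact Nat.card_pos.ne'
      rw [h1, padicValNat.pow, padicValNat.pow, hdn]
      push_cast
      ring
  · intro h
    have h1 := (hPO G T p (fun _ => ⊤) (fun _ => ⊥)).2 (fun _ => h)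
    have h2 : (Subgroup.pi Set.univ fun _ : T => (⊤ : Subgroup G)) = ⊤ := by
      rw [eq_top_iff]
      intro x _ t _
      trivial
    have h3 : (Subgroup.pi Set.univ fun _ : T => (⊥ : Subgroup G)) = ⊥ := by
      rw [eq_bot_iff]
      intro x hx
      rw [Subgroup.mem_bot]
      funext t
      exact Subgroup.mem_bot.1 (hx t (Set.mem_univ t))
    rw [h2, h3] at h1
    exact h1

end Pool.Agent.helper99.DC
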